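import Pool.Agent.Lib.MP_60829e_nt.TL.Coord

/-! The linear algebra of the tuple law, for a linear map from a `K`-space to an `F`-space. -/

set_option linter.unusedSectionVars false

namespace MP60829e.TL

open MvPolynomial

section
variable {K F : Type*} [Field K] [Field F] [Algebra K F]
variable {M : Type*} [AddCommGroup M] [Module K M]
variable {W : Type*} [AddCommGroup W] [Module F W] [Module K W] [IsScalarTower K F W]

theorem abs_rank (δ : M →ₗ[K] W) (E E₀ : Submodule K M) [FiniteDimensional K E]
    (hE₀ : ∀ z, z ∈ E₀ ↔ z ∈ E ∧ δ z = 0) :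
    Module.finrank K (E.map δ) + Module.finrank K E₀ = Module.finrank K E := by
  have h1 := LinearMap.finrank_range_add_finrank_ker (δ.domRestrict E)
  have h2 : LinearMap.range (δ.domRestrict E) = E.map δ := by
    rw [LinearMap.range_domRestrict]
  have h3 : Module.finrank K (LinearMap.ker (δ.domRestrict E)) = Module.finrank K E₀ := by
    have h4 : (LinearMap.ker (δ.domRestrict E)).map E.subtype = E₀ := by
      ext z
      rw [hE₀]
      constructor
      · rintro ⟨w, hw, rfl⟩
        exact ⟨w.2, LinearMap.mem_ker.mp hw⟩
      · rintro ⟨hz, h0⟩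
        refine ⟨⟨z, hz⟩, ?_, rfl⟩
        show δ.domRestrict E ⟨z, hz⟩ = 0
        exact h0
    rw [← h4]
    exact (LinearEquiv.finrank_eq (Submodule.equivMapOfInjective _
      (Submodule.injective_subtype E) _))
  rw [h2, h3] at h1
  exact h1

theorem abs_law [IsAlgClosed K] {n m N : ℕ} (g : Fin n → W)
    (hN : Module.finrank K (Submodule.span K (Set.range g)) = N)
    (u : Fin (m + 1) → W) (hu : ∀ i, u i ∈ Submodule.span K (Set.range g))
    (huind : LinearIndependent F u) :
    m + 1 ≤ N ∧ ∃ G : MvPolynomial (Fin m × Fin n) K, G ≠ 0 ∧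
      (∀ d ∈ G.support, ∀ k, ∑ j, d (k, j) = N - m) ∧
      ∀ c : Fin m × Fin n → K, eval c G ≠ 0 →
        LinearIndependent F (fun k => ∑ j, c (k, j) • g j) ∧
        ∀ y ∈ Submodule.span K (Set.range g),
          y ∈ Submodule.span F (Set.range fun k => ∑ j, c (k, j) • g j) →
          y ∈ Submodule.span K (Set.range fun k => ∑ j, c (k, j) • g j) := by
  classical
  let U : Submodule K W := Submodule.span K (Set.range g)
  have hfinU : FiniteDimensional K U := FiniteDimensional.span_of_finite _ (Set.finite_range g)
  let B := Module.finBasisOfFinrankEq K U hN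
  let e : Fin N → W := fun i => (B i : W)
  have he : LinearIndependent K e :=
    B.linearIndependent.map' U.subtype (Submodule.ker_subtype U)
  have hespan : Submodule.span K (Set.range e) = U := by
    have h1 : Set.range e = U.subtype '' Set.range B := by
      rw [← Set.range_comp]
      rfl
    rw [h1, ← Submodule.map_span, B.span_eq, Submodule.map_top, Submodule.range_subtype]
  have hP : ∀ j, ∃ p : Fin N → K, ∑ i, p i • e i = g j := by
    intro j
    have h1 : g j ∈ U := Submodule.subset_span ⟨j, rfl⟩
    rw [← hespan] at h1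
    exact (Submodule.mem_span_range_iff_exists_fun K).mp h1
  choose P hP using hP
  have hQ : ∀ i, ∃ q : Fin n → K, ∑ j, q j • g j = e i := by
    intro i
    exact (Submodule.mem_span_range_iff_exists_fun K).mp (B i).2
  choose Q hQ using hQ
  have hQP : ∀ i i', ∑ j, Q i j * P j i' = if i' = i then 1 else 0 := by
    intro i i'
    have h1 : ∑ i', ((∑ j, Q i j * P j i') - if i' = i then 1 else 0) • e i' = 0 := by
      have h2 : ∑ i', (∑ j, Q i j * P j i') • e i' = e i := by
        conv_rhs => rw [← hQ i]
        simp only [← hP, Finset.smul_sum, Finset.sum_smul, smul_smul]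
        rw [Finset.sum_comm]
      have h3 : ∑ i', (if i' = i then (1 : K) else 0) • e i' = e i := by
        simp
      simp only [sub_smul, Finset.sum_sub_distrib]
      rw [h2, h3, sub_self]
    have h4 := Fintype.linearIndependent_iff.mp he _ h1 i'
    exact sub_eq_zero.mp h4
  have hmN : m + 1 ≤ N := by
    have h1 : LinearIndependent K (fun i => (⟨u i, hu i⟩ : U)) := by
      apply LinearIndependent.of_comp U.subtype
      exact huind.restrict_scalars' K
    have h2 := h1.fintype_card_le_finrank
    rw [Fintype.card_fin] at h2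
    exact h2.trans hN.le
  obtain ⟨G, hG0, hGdeg, hG⟩ := exists_G (m := m) (r := N - m) e he
    (by rw [Fintype.card_fin]; omega) u
    (fun i => by rw [hespan]; exact hu i) huind
  refine ⟨hmN, subst P G, ?_, subst_rows P G hGdeg, ?_⟩
  · intro h0
    have : Infinite K := IsAlgClosed.instInfinite
    apply hG0
    apply MvPolynomial.funext
    intro c'
    have h1 := eval_subst P G (fun kj => ∑ i, c' (kj.1, i) * Q i kj.2)
    rw [h0, map_zero] at h1
    rw [map_zero, h1]
    have h5 : (fun i : Fin m × Fin N => ∑ j, P j i.2 * ∑ i', c' (i.1, i') * Q i' j) = c' := by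
      funext ki
      obtain ⟨k, i'⟩ := ki
      show ∑ j, P j i' * ∑ i, c' (k, i) * Q i j = c' (k, i')
      have h2 : ∑ j, P j i' * ∑ i, c' (k, i) * Q i j = ∑ i, c' (k, i) * ∑ j, Q i j * P j i' := by
        simp only [Finset.mul_sum]
        rw [Finset.sum_comm]
        refine Finset.sum_congr rfl fun i _ => Finset.sum_congr rfl fun j _ => by ring
      rw [h2]
      simp [hQP]
    rw [h5]
  · intro c hc
    rw [eval_subst] at hc
    have h3 := hG _ hc
    have hfun : (fun k => ∑ i, (∑ j, P j i * c (k, j)) • e i) =
        fun k => ∑ j, c (k, j) • g j := by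
      funext k
      simp only [← hP, Finset.smul_sum, Finset.sum_smul, smul_smul]
      rw [Finset.sum_comm]
      refine Finset.sum_congr rfl fun j _ => Finset.sum_congr rfl fun i _ => by rw [mul_comm]
    have h4 : (fun k => ∑ i, (fun i : Fin m × Fin N => ∑ j, P j i.2 * c (i.1, j)) (k, i) • e i) =
        fun k => ∑ j, c (k, j) • g j := hfun
    rw [h4, hespan] at h3
    exact h3

end

end MP60829e.TL
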