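import Pool.Agent.Lib.MP_60829e_nt.TL.Der
import Pool.Agent.Lib.MP_60829e_nt.TL.Abs

/-! The tuple law over an arbitrary base field `L` between `K` and `F`. -/

set_option linter.unusedSectionVars false

namespace MP60829e.TL

open MvPolynomial

section
variable {K L F : Type*} [Field K] [Field L] [CharZero L] [Field F] [Algebra K L] [Algebra L F]
  [Algebra K F] [IsScalarTower K L F]

theorem ev_smul_tower (a : K) (x : F) : ev (K := L) (a • x) = a • ev (K := L) x := by
  ext D
  show D (a • x) = a • D x
  rw [← algebraMap_smul L a x, D.map_smul, algebraMap_smul]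

/-- `ev` over `L`, as a `K`-linear map. -/
noncomputable def evK (K L : Type*) {F : Type*} [Field K] [Field L] [CharZero L] [Field F]
    [Algebra K L] [Algebra L F] [Algebra K F] [IsScalarTower K L F] :
    F →ₗ[K] Module.Dual F (Derivation L F F) where
  toFun x := ev (K := L) x
  map_add' x y := map_add _ x y
  map_smul' a x := ev_smul_tower a x

theorem evK_apply (x : F) : evK K L x = ev (K := L) x := rfl

theorem ev_eq_zero_iff (x : F) : ev (K := L) x = 0 ↔ IsAlgebraic L x := by
  constructor
  · intro h
    by_contra hx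
    obtain ⟨D, hD⟩ := MP60829e.PS.exists_derivation_of_transcendental (K := L) (e := x) hx
    have := congrArg (fun θ : Module.Dual F (Derivation L F F) => θ D) h
    simp only [ev_apply, hD, LinearMap.zero_apply] at this
    exact one_ne_zero this
  · intro h
    ext D
    rw [ev_apply, LinearMap.zero_apply]
    exact MP60829e.PS.derivation_eq_zero_of_isAlgebraic (D.restrictScalars ℤ)
      (fun a => D.map_algebraMap a) h

theorem evK_eq_zero_iff (x : F) : evK K L x = 0 ↔ IsAlgebraic L x := ev_eq_zero_iff x

theorem evK_congr {x y : F} (h : IsAlgebraic L (x - y)) : evK K L x = evK K L y := by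
  rw [← sub_eq_zero, ← map_sub, evK_eq_zero_iff]
  exact h

theorem tuple_law_rel [IsAlgClosed K] {n : ℕ} (l : Fin n → F) (hl : LinearIndependent K l)
    (E E₀ : Submodule K F) (hE : E = Submodule.span K (Set.range l))
    (hE₀ : ∀ z, z ∈ E₀ ↔ z ∈ E ∧ IsAlgebraic L z) (m : ℕ) :
    (∀ x : Fin (m + 1) → F, (∀ i, x i ∈ E) → ¬ AlgebraicIndependent L x) ∨
    ∃ G : MvPolynomial (Fin m × Fin n) K, G ≠ 0 ∧
      (∀ d ∈ G.support, ∀ k, ∑ j, d (k, j) + m + Module.finrank K E₀ = n) ∧
      ∀ (c : Fin m × Fin n → K), eval c G ≠ 0 → ∀ (x : Fin m → F) (y : F),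
        (∀ k, IsAlgebraic L (x k - ∑ j, c (k, j) • l j)) →
        (∃ z ∈ E, IsAlgebraic L (y - z)) →
        (∀ z ∈ Submodule.span K (Set.range x), ¬ IsAlgebraic L (y - z)) →
          AlgebraicIndependent L (Fin.cons y x : Fin (m + 1) → F) := by
  classical
  by_cases hall : ∀ x : Fin (m + 1) → F, (∀ i, x i ∈ E) → ¬ AlgebraicIndependent L x
  · exact Or.inl hall
  right
  push Not at hall
  obtain ⟨x0, hx0, hx0ind⟩ := hall
  have hfinE : FiniteDimensional K E := by
    rw [hE]
    exact FiniteDimensional.span_of_finite _ (Set.finite_range l)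
  have hrankE : Module.finrank K E = n := by
    rw [hE, finrank_span_eq_card hl, Fintype.card_fin]
  have hmap : E.map (evK K L) = Submodule.span K (Set.range fun j => evK K L (l j)) := by
    rw [hE, Submodule.map_span, ← Set.range_comp]
    rfl
  have hrank := abs_rank (evK K L) E E₀ (fun z => by rw [hE₀, evK_eq_zero_iff])
  rw [hmap, hrankE] at hrank
  have huind : LinearIndependent F (fun i => evK K L (x0 i)) :=
    ev_linearIndependent (K := L) x0 hx0ind
  have hmem : ∀ z ∈ E, evK K L z ∈ Submodule.span K (Set.range fun j => evK K L (l j)) := by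
    intro z hz
    rw [← hmap]
    exact Submodule.mem_map_of_mem hz
  obtain ⟨hmN, G, hG0, hGdeg, hG⟩ := abs_law (K := K) (F := F) (m := m)
    (fun j => evK K L (l j)) rfl (fun i => evK K L (x0 i)) (fun i => hmem _ (hx0 i)) huind
  refine ⟨G, hG0, ?_, ?_⟩
  · intro d hd k
    rw [hGdeg d hd k]
    omega
  · intro c hc x y hx hy hyn
    obtain ⟨h1, h2⟩ := hG _ hc
    have hfun : (fun k => ∑ j, c (k, j) • evK K L (l j)) = fun k => evK K L (x k) := by
      funext k
      rw [evK_congr (K := K) (hx k), map_sum]
      simp only [map_smul]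
    rw [hfun] at h1 h2
    apply algebraicIndependent_of_ev
    have hcons : (fun i => ev (K := L) ((Fin.cons y x : Fin (m + 1) → F) i)) =
        Fin.cons (evK K L y) (fun k => evK K L (x k)) := by
      funext i
      refine Fin.cases ?_ (fun k => ?_) i
      · rfl
      · rfl
    rw [hcons, linearIndependent_finCons]
    refine ⟨h1, fun hF => ?_⟩
    obtain ⟨z, hz, hyz⟩ := hy
    have hyU : evK K L y ∈ Submodule.span K (Set.range fun j => evK K L (l j)) := by
      rw [evK_congr (K := K) hyz]
      exact hmem z hz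
    have h3 := h2 _ hyU hF
    obtain ⟨a, ha⟩ := (Submodule.mem_span_range_iff_exists_fun K).mp h3
    refine hyn (∑ k, a k • x k) ?_ ?_
    · exact sum_mem fun k _ => Submodule.smul_mem _ _ (Submodule.subset_span ⟨k, rfl⟩)
    · rw [← evK_eq_zero_iff (K := K), map_sub, sub_eq_zero, ← ha, map_sum]
      simp only [map_smul]

end

end MP60829e.TL
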