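import Mathlib

/-! Linear algebra: a nonvanishing minor of a family of functionals. -/

namespace MP60829e.TL

section
variable {K V S : Type*} [Field K] [AddCommGroup V] [Module K V] [FiniteDimensional K V]

theorem exists_minor (θ : S → V →ₗ[K] K) (Z : Submodule K V)
    (hZ : ∀ v, (∀ s, θ s v = 0) → v ∈ Z) (r : ℕ)
    (hr : Module.finrank K Z + r = Module.finrank K V) :
    ∃ (s : Fin r → S) (v : Fin r → V), (Matrix.of fun p q => θ (s p) (v q)).det ≠ 0 := by
  classical
  obtain ⟨C, hC⟩ := Submodule.exists_isCompl Z
  have hCr : Module.finrank K C = r := by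
    have := Submodule.finrank_add_eq_of_isCompl hC
    omega
  let B := Module.finBasisOfFinrankEq K C hCr
  let v : Fin r → V := fun q => (B q : V)
  let rows : S → (Fin r → K) := fun s q => θ s (v q)
  have hspan : Submodule.span K (Set.range rows) = ⊤ := by
    by_contra hne
    obtain ⟨f, hf, hker⟩ := Submodule.exists_le_ker_of_lt_top _ (lt_top_iff_ne_top.mpr hne)
    apply hf
    let x : V := ∑ q, f (Pi.single q 1) • v q
    have hfsum : ∀ y : Fin r → K, f y = ∑ q, f (Pi.single q 1) * y q := by
      intro y
      conv_lhs => rw [← Finset.univ_sum_single y]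
      rw [map_sum]
      refine Finset.sum_congr rfl fun q _ => ?_
      have : (Pi.single q (y q) : Fin r → K) = y q • Pi.single q (1 : K) := by
        rw [← Pi.single_smul, smul_eq_mul, mul_one]
      rw [this, map_smul, smul_eq_mul, mul_comm]
    have hx0 : x = 0 := by
      have hxZ : x ∈ Z := by
        apply hZ
        intro s
        have h1 : f (rows s) = 0 :=
          LinearMap.mem_ker.mp (hker (Submodule.subset_span ⟨s, rfl⟩))
        rw [hfsum] at h1
        rw [map_sum, ← h1]
        refine Finset.sum_congr rfl fun q _ => ?_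
        rw [map_smul, smul_eq_mul]
      have hxC : x ∈ C := sum_mem fun q _ => C.smul_mem _ (B q).2
      exact Submodule.disjoint_def.mp hC.disjoint x hxZ hxC
    have hv : LinearIndependent K v := B.linearIndependent.map' C.subtype (Submodule.ker_subtype C)
    have hz := Fintype.linearIndependent_iff.mp hv _ hx0
    apply LinearMap.ext
    intro y
    rw [hfsum, LinearMap.zero_apply]
    exact Finset.sum_eq_zero fun q _ => by rw [hz q, zero_mul]
  obtain ⟨κ, a, -, hsp, hli⟩ := exists_linearIndependent' K rows
  rw [hspan] at hsp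
  let B' : Module.Basis κ K (Fin r → K) := Module.Basis.mk hli hsp.ge
  have : Fintype κ := FiniteDimensional.fintypeBasisIndex B'
  have hcard : Fintype.card κ = r := by
    rw [← Module.finrank_eq_card_basis B', Module.finrank_fin_fun]
  let E : Fin r ≃ κ := (Fintype.equivFinOfCardEq hcard).symm
  refine ⟨fun p => a (E p), v, ?_⟩
  have hli2 : LinearIndependent K (fun p : Fin r => rows (a (E p))) := hli.comp E E.injective
  have hu := Matrix.linearIndependent_rows_iff_isUnit (A := Matrix.of fun p q => θ (a (E p)) (v q))
  have := hu.mp hli2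
  rw [Matrix.isUnit_iff_isUnit_det, isUnit_iff_ne_zero] at this
  exact this

theorem mem_span_of_minor {r m : ℕ} (θ : Fin r → V →ₗ[K] K) (v : Fin r → V)
    (hdet : (Matrix.of fun p q => θ p (v q)).det ≠ 0) (hr : m + r = Module.finrank K V)
    (u : Fin m → V) (hu : LinearIndependent K u) (hku : ∀ p k, θ p (u k) = 0)
    (y : V) (hy : ∀ p, θ p y = 0) : y ∈ Submodule.span K (Set.range u) := by
  classical
  let Θ : V →ₗ[K] (Fin r → K) := LinearMap.pi θ
  have hsurj : Function.Surjective Θ := by
    have hunit : IsUnit (Matrix.of fun p q => θ p (v q)) := by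
      rw [Matrix.isUnit_iff_isUnit_det, isUnit_iff_ne_zero]
      exact hdet
    intro z
    obtain ⟨x, hx⟩ := (Matrix.mulVec_surjective_iff_isUnit.mpr hunit) z
    refine ⟨∑ q, x q • v q, ?_⟩
    rw [← hx]
    funext p
    simp only [Θ, LinearMap.pi_apply, map_sum, map_smul, smul_eq_mul, Matrix.mulVec,
      dotProduct, Matrix.of_apply]
    refine Finset.sum_congr rfl fun q _ => mul_comm _ _
  have hker : Module.finrank K (LinearMap.ker Θ) = m := by
    have h1 := LinearMap.finrank_range_add_finrank_ker Θ
    rw [LinearMap.range_eq_top.mpr hsurj, finrank_top, Module.finrank_fin_fun] at h1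
    omega
  have hle : Submodule.span K (Set.range u) ≤ LinearMap.ker Θ := by
    rw [Submodule.span_le]
    rintro _ ⟨k, rfl⟩
    rw [SetLike.mem_coe, LinearMap.mem_ker]
    funext p
    exact hku p k
  have heq : Submodule.span K (Set.range u) = LinearMap.ker Θ := by
    apply Submodule.eq_of_le_of_finrank_eq hle
    rw [hker, finrank_span_eq_card hu, Fintype.card_fin]
  rw [heq, LinearMap.mem_ker]
  funext p
  exact hy p

end

end MP60829e.TL
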