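import Pool.Agent.Lib.MP_60829e_nt.TL.Tuple
import Pool.Agent.Lib.MP_60829e_nt.TL.Minor

/-! The polynomial `G`. -/

set_option linter.unusedSectionVars false

namespace MP60829e.TL

open MvPolynomial

section
variable {K F : Type*} [Field K] [Field F] [Algebra K F]
variable {W : Type*} [AddCommGroup W] [Module F W] [Module K W] [IsScalarTower K F W]

/-- the alternating form `det (Φ_i (V_k))`. -/
noncomputable def alt {m : ℕ} (Φ : Fin (m + 1) → W →ₗ[F] F) : W [⋀^Fin (m + 1)]→ₗ[F] F :=
  (Matrix.detRowAlternating (n := Fin (m + 1)) (R := F)).compLinearMap (LinearMap.pi Φ)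

theorem alt_apply {m : ℕ} (Φ : Fin (m + 1) → W →ₗ[F] F) (V : Fin (m + 1) → W) :
    alt Φ V = Matrix.det (Matrix.of fun k i => Φ i (V k)) := rfl

theorem linearIndependent_of_alt {m : ℕ} (Φ : Fin (m + 1) → W →ₗ[F] F) (V : Fin (m + 1) → W)
    (h : alt Φ V ≠ 0) : LinearIndependent F V := by
  by_contra hn
  exact h (AlternatingMap.map_linearDependent _ _ hn)

theorem exists_alt {m : ℕ} (V : Fin (m + 1) → W) (hV : LinearIndependent F V) :
    ∃ Φ : Fin (m + 1) → W →ₗ[F] F, alt Φ V ≠ 0 := by
  classical
  have h1 : ∀ i, ∃ φ : W →ₗ[F] F, φ (V i) ≠ 0 ∧ ∀ k, k ≠ i → φ (V k) = 0 := by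
    intro i
    have h2 := linearIndependent_iff_notMem_span.mp hV i
    obtain ⟨φ, hφ, hker⟩ := Submodule.exists_le_ker_of_notMem h2
    refine ⟨φ, hφ, fun k hk => LinearMap.mem_ker.mp (hker (Submodule.subset_span ?_))⟩
    exact ⟨k, ⟨Set.mem_univ _, hk⟩, rfl⟩
  choose Φ hΦ hΦ0 using h1
  refine ⟨Φ, ?_⟩
  rw [alt_apply]
  have : (Matrix.of fun k i => Φ i (V k)) = Matrix.diagonal fun i => Φ i (V i) := by
    ext k i
    by_cases h : k = i
    · subst h
      simp
    · rw [Matrix.of_apply, hΦ0 i k h, Matrix.diagonal_apply_ne _ h]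
  rw [this, Matrix.det_diagonal]
  exact Finset.prod_ne_zero_iff.mpr fun i _ => hΦ i

/-- `v ↦ χ (alt Φ (v, u))`. -/
noncomputable def theta {m : ℕ} (Φ : Fin (m + 1) → W →ₗ[F] F) (χ : F →ₗ[K] K) (u : Fin m → W) :
    W →ₗ[K] K where
  toFun v := χ (alt Φ (Fin.cons v u))
  map_add' x y := by
    have := (alt Φ).toMultilinearMap.cons_add u x y
    rw [← map_add]
    exact congrArg χ this
  map_smul' a x := by
    have := (alt Φ).toMultilinearMap.cons_smul u (algebraMap K F a) x
    rw [algebraMap_smul] at this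
    rw [RingHom.id_apply, ← map_smul]
    refine congrArg χ (this.trans ?_)
    rw [algebraMap_smul]
    rfl

theorem theta_apply {m : ℕ} (Φ : Fin (m + 1) → W →ₗ[F] F) (χ : F →ₗ[K] K) (u : Fin m → W)
    (v : W) : theta Φ χ u v = χ (alt Φ (Fin.cons v u)) := rfl

/-- the polynomial with values `theta Φ χ u v`, `u` the point with coefficients `Y`. -/
noncomputable def pol {m : ℕ} {ι : Type*} [Fintype ι] (e : ι → W)
    (Φ : Fin (m + 1) → W →ₗ[F] F) (χ : F →ₗ[K] K) (v : W) : MvPolynomial (Fin m × ι) K :=
  ∑ t : Fin m → ι, C (χ (alt Φ (Fin.cons v fun k => e (t k)))) * ∏ k, X (k, t k)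

theorem eval_pol {m : ℕ} {ι : Type*} [Fintype ι] (e : ι → W)
    (Φ : Fin (m + 1) → W →ₗ[F] F) (χ : F →ₗ[K] K) (v : W) (c : Fin m × ι → K) :
    eval c (pol e Φ χ v) = theta Φ χ (fun k => ∑ j, c (k, j) • e j) v := by
  classical
  rw [theta_apply, pol, map_sum]
  let B : MultilinearMap K (fun _ : Fin m => W) F :=
    ((alt Φ).toMultilinearMap.restrictScalars K).curryLeft v
  have hB : ∀ u : Fin m → W, B u = alt Φ (Fin.cons v u) := fun u => rfl
  rw [← hB, MultilinearMap.map_sum, map_sum]
  refine Finset.sum_congr rfl fun t _ => ?_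
  rw [MultilinearMap.map_smul_univ, map_smul, smul_eq_mul, hB, map_mul, eval_C, map_prod, mul_comm]
  simp only [eval_X]

theorem pol_isWeightedHomogeneous {m : ℕ} {ι : Type*} [Fintype ι] (e : ι → W)
    (Φ : Fin (m + 1) → W →ₗ[F] F) (χ : F →ₗ[K] K) (v : W) :
    IsWeightedHomogeneous (fun i : Fin m × ι => (Pi.single i.1 1 : Fin m → ℕ))
      (pol e Φ χ v) (fun _ => 1) := by
  classical
  rw [pol]
  refine IsWeightedHomogeneous.sum _ _ _ fun t _ => ?_
  refine IsWeightedHomogeneous.C_mul ?_ _
  have h := IsWeightedHomogeneous.prod (w := fun i : Fin m × ι => (Pi.single i.1 1 : Fin m → ℕ))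
    Finset.univ (fun k => (X (k, t k) : MvPolynomial (Fin m × ι) K))
    (fun k => (Pi.single k 1 : Fin m → ℕ)) (fun k _ => isWeightedHomogeneous_X K _ _)
  have h2 : (∑ k : Fin m, (Pi.single k 1 : Fin m → ℕ)) = fun _ => 1 := by
    funext k
    rw [Finset.sum_apply, Finset.sum_eq_single k]
    · simp
    · intro b _ hb
      rw [Pi.single_eq_of_ne (Ne.symm hb)]
    · simp
  rwa [h2] at h

theorem exists_G [IsAlgClosed K] {m r : ℕ} {ι : Type*} [Fintype ι] (e : ι → W)
    (he : LinearIndependent K e) (hmr : m + r = Fintype.card ι)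
    (u : Fin (m + 1) → W) (hu : ∀ i, u i ∈ Submodule.span K (Set.range e))
    (hind : LinearIndependent F u) :
    ∃ G : MvPolynomial (Fin m × ι) K, G ≠ 0 ∧ (∀ d ∈ G.support, ∀ k, ∑ j, d (k, j) = r) ∧
      ∀ c : Fin m × ι → K, eval c G ≠ 0 →
        LinearIndependent F (fun k => ∑ j, c (k, j) • e j) ∧
        ∀ y ∈ Submodule.span K (Set.range e),
          y ∈ Submodule.span F (Set.range fun k => ∑ j, c (k, j) • e j) →
          y ∈ Submodule.span K (Set.range fun k => ∑ j, c (k, j) • e j) := by
  classical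
  let U := Submodule.span K (Set.range e)
  have hfin : FiniteDimensional K U := FiniteDimensional.span_of_finite _ (Set.finite_range e)
  have hUrank : Module.finrank K U = Fintype.card ι := finrank_span_eq_card he
  have heU : ∀ j, e j ∈ U := fun j => Submodule.subset_span ⟨j, rfl⟩
  obtain ⟨v0, hv0U, hv0ind, hgood⟩ := exists_good_tuple m U u hu hind
  have hv0indK : LinearIndependent K v0 := hv0ind.restrict_scalars' K
  -- coefficients of the good tuple
  have hcoef : ∀ k, ∃ c : ι → K, v0 k = ∑ j, c j • e j := by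
    intro k
    obtain ⟨c, hc⟩ := (Submodule.mem_span_range_iff_exists_fun K).mp (hv0U k)
    exact ⟨c, hc.symm⟩
  choose c0 hc0 using hcoef
  let Z : Submodule K U := (Submodule.span K (Set.range v0)).comap U.subtype
  have hZrank : Module.finrank K Z = m := by
    have hle : Submodule.span K (Set.range v0) ≤ U := by
      rw [Submodule.span_le]
      rintro _ ⟨k, rfl⟩
      exact hv0U k
    have h1 : Module.finrank K Z = Module.finrank K (Submodule.span K (Set.range v0)) :=
      LinearEquiv.finrank_eq (Submodule.comapSubtypeEquivOfLe hle)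
    rw [h1, finrank_span_eq_card hv0indK, Fintype.card_fin]
  let θ : (Fin (m + 1) → W →ₗ[F] F) × (F →ₗ[K] K) → (Fin m → W) → U →ₗ[K] K :=
    fun s w => (theta s.1 s.2 w).comp U.subtype
  have hθ : ∀ s w (y : U), θ s w y = s.2 (alt s.1 (Fin.cons (y : W) w)) := fun s w y => rfl
  obtain ⟨s, v, hdet⟩ := exists_minor (fun s => θ s v0) Z (by
    intro y hy
    show (y : W) ∈ Submodule.span K (Set.range v0)
    apply hgood y y.2
    by_contra hn
    have hcons : LinearIndependent F (Fin.cons (y : W) v0 : Fin (m + 1) → W) := by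
      rw [linearIndependent_finCons]
      exact ⟨hv0ind, hn⟩
    obtain ⟨Φ, hΦ⟩ := exists_alt _ hcons
    obtain ⟨χ, hχ, -⟩ := Submodule.exists_le_ker_of_notMem (K := K) (p := ⊥)
      (v := alt Φ (Fin.cons (y : W) v0 : Fin (m + 1) → W)) (by simpa using hΦ)
    exact hχ (hy (Φ, χ))) r (by rw [hZrank, hUrank, hmr])
  let G : MvPolynomial (Fin m × ι) K :=
    (Matrix.of fun p q => pol e (s p).1 (s p).2 (v q : W)).det
  have hG : ∀ c : Fin m × ι → K, eval c G =
      (Matrix.of fun p q => θ (s p) (fun k => ∑ j, c (k, j) • e j) (v q)).det := by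
    intro c
    show eval c (Matrix.det _) = _
    rw [RingHom.map_det]
    congr 1
    ext p q
    show eval c (pol e (s p).1 (s p).2 (v q : W)) = _
    rw [eval_pol]
    rfl
  refine ⟨G, ?_, ?_, ?_⟩
  · intro h0
    apply hdet
    have h1 := hG (fun i => c0 i.1 i.2)
    rw [h0, map_zero] at h1
    have h2 : (fun k => ∑ j, c0 k j • e j) = v0 := by
      funext k
      exact (hc0 k).symm
    simp only [h2] at h1
    exact h1.symm
  · have hw : IsWeightedHomogeneous (fun i : Fin m × ι => (Pi.single i.1 1 : Fin m → ℕ))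
        G (fun _ => r) := by
      show IsWeightedHomogeneous _ (Matrix.det _) _
      rw [Matrix.det_apply]
      refine IsWeightedHomogeneous.sum _ _ _ fun σ _ => ?_
      have h3 : IsWeightedHomogeneous (fun i : Fin m × ι => (Pi.single i.1 1 : Fin m → ℕ))
          (∏ i, (Matrix.of fun p q => pol e (s p).1 (s p).2 (v q : W)) (σ i) i) (fun _ => r) := by
        have h4 := IsWeightedHomogeneous.prod
          (w := fun i : Fin m × ι => (Pi.single i.1 1 : Fin m → ℕ))
          Finset.univ (fun i => (Matrix.of fun p q => pol e (s p).1 (s p).2 (v q : W)) (σ i) i)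
          (fun _ : Fin r => (fun _ => 1 : Fin m → ℕ))
          (fun i _ => pol_isWeightedHomogeneous e _ _ _)
        have h5 : (∑ _i : Fin r, (fun _ => 1 : Fin m → ℕ)) = fun _ => r := by
          funext k
          simp
        rwa [h5] at h4
      rcases Int.units_eq_one_or (Equiv.Perm.sign σ) with hs | hs
      · rw [hs, one_smul]
        exact h3
      · rw [hs, Units.neg_smul, one_smul]
        exact h3.neg
    intro d hd k
    have h6 := congrFun (hw (mem_support_iff.mp hd)) k
    rw [Finsupp.weight_apply, Finsupp.sum_fintype _ _ (by simp), Finset.sum_apply] at h6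
    rw [← h6, Fintype.sum_prod_type]
    rw [Finset.sum_eq_single k]
    · refine Finset.sum_congr rfl fun j _ => ?_
      simp
    · intro b _ hb
      apply Finset.sum_eq_zero
      intro j _
      simp [Pi.single_eq_of_ne (Ne.symm hb)]
    · simp
  · intro c hc
    rw [hG] at hc
    have hr : 0 < r := by
      have h7 := hind.restrict_scalars' K
      have h8 : LinearIndependent K (fun i => (⟨u i, hu i⟩ : U)) := by
        apply LinearIndependent.of_comp U.subtype
        exact h7
      have h9 := h8.fintype_card_le_finrank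
      rw [Fintype.card_fin, hUrank] at h9
      omega
    have hcind : LinearIndependent F (fun k => ∑ j, c (k, j) • e j) := by
      obtain ⟨p, q, hpq⟩ : ∃ p q, θ (s p) (fun k => ∑ j, c (k, j) • e j) (v q) ≠ 0 := by
        by_contra hall
        push Not at hall
        apply hc
        have : (Matrix.of fun p q => θ (s p) (fun k => ∑ j, c (k, j) • e j) (v q)) = 0 := by
          ext p q
          exact hall p q
        rw [this]
        have : Nonempty (Fin r) := ⟨⟨0, hr⟩⟩
        exact Matrix.det_zero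
      have hne : alt (s p).1 (Fin.cons (v q : W) (fun k => ∑ j, c (k, j) • e j)) ≠ 0 := by
        intro h0
        apply hpq
        rw [hθ, h0, map_zero]
      exact (linearIndependent_finCons.mp (linearIndependent_of_alt _ _ hne)).1
    refine ⟨hcind, ?_⟩
    intro y hy hyF
    have hmemU : ∀ k, ∑ j, c (k, j) • e j ∈ U := fun k =>
      sum_mem fun j _ => U.smul_mem _ (heU j)
    have hker : ∀ s' (z : W) (hz : z ∈ U),
        z ∈ Submodule.span F (Set.range fun k => ∑ j, c (k, j) • e j) →
        θ s' (fun k => ∑ j, c (k, j) • e j) ⟨z, hz⟩ = 0 := by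
      intro s' z hz hzF
      rw [hθ]
      have h0 : alt s'.1 (Fin.cons z (fun k => ∑ j, c (k, j) • e j)) = 0 := by
        by_contra hne
        exact (linearIndependent_finCons.mp (linearIndependent_of_alt _ _ hne)).2 hzF
      show s'.2 (alt s'.1 (Fin.cons z (fun k => ∑ j, c (k, j) • e j))) = 0
      rw [h0, map_zero]
    have hcindU : LinearIndependent K (fun k => (⟨∑ j, c (k, j) • e j, hmemU k⟩ : U)) := by
      apply LinearIndependent.of_comp U.subtype
      exact hcind.restrict_scalars' K
    have h10 := mem_span_of_minor (fun p => θ (s p) (fun k => ∑ j, c (k, j) • e j)) v hc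
      (by rw [hmr, hUrank]) _ hcindU
      (fun p k => hker _ _ _ (Submodule.subset_span ⟨k, rfl⟩)) ⟨y, hy⟩
      (fun p => hker _ _ _ hyF)
    have h11 := Submodule.mem_map_of_mem (f := U.subtype) h10
    rw [Submodule.map_span, ← Set.range_comp] at h11
    exact h11

end

end MP60829e.TL
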