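import Pool.Agent.Lib.MP_60829e_nt.TL.Der
import Pool.Agent.Lib.MP_60829e_nt.TL.Poly

/-! The tuple law for a finite dimensional space of elements of a field extension. -/

namespace MP60829e.TL

open MvPolynomial

theorem tuple_law {K F : Type*} [Field K] [IsAlgClosed K] [CharZero K] [Field F] [Algebra K F]
    {n : ℕ} (l : Fin n → F) (hl : LinearIndependent K (Fin.cons (1 : F) l : Fin (n + 1) → F))
    (m : ℕ) :
    (∀ x : Fin (m + 1) → F, (∀ i, x i ∈ Submodule.span K (Set.range l)) →
      ¬ AlgebraicIndependent K x) ∨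
    ∃ G : MvPolynomial (Fin m × Fin n) K, G ≠ 0 ∧
      (∀ d ∈ G.support, ∀ k, ∑ j, d (k, j) + m = n) ∧
      ∀ (c : Fin m × Fin n → K) (x : Fin m → F), (∀ k, x k = ∑ j, c (k, j) • l j) →
        eval c G ≠ 0 →
        ∀ y ∈ Submodule.span K (Set.range l), y ∉ Submodule.span K (Set.range x) →
          AlgebraicIndependent K (Fin.cons y x : Fin (m + 1) → F) := by
  classical
  by_cases hall : ∀ x : Fin (m + 1) → F, (∀ i, x i ∈ Submodule.span K (Set.range l)) →
      ¬ AlgebraicIndependent K x
  · exact Or.inl hall
  right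
  push Not at hall
  obtain ⟨x0, hx0, hx0ind⟩ := hall
  have hzero : ∀ c : Fin n → K, ev (K := K) (∑ j, c j • l j) = 0 → c = 0 := by
    intro c hc
    obtain ⟨a, ha⟩ := MP60829e.PS.mem_range_of_forall_derivation (K := K)
      (a := ∑ j, c j • l j) (fun D => by
        have := congrArg (fun L : Module.Dual F (Derivation K F F) => L D) hc
        exact this)
    have h1 := Fintype.linearIndependent_iff.mp hl (Fin.cons (-a) c) (by
      rw [Fin.sum_univ_succ]
      simp only [Fin.cons_zero, Fin.cons_succ]
      rw [← ha, Algebra.smul_def, mul_one, map_neg, neg_add_cancel])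
    funext j
    exact h1 j.succ
  let e : Fin n → Module.Dual F (Derivation K F F) := fun j => ev (K := K) (l j)
  have he : LinearIndependent K e := by
    rw [Fintype.linearIndependent_iff]
    intro c hc j
    have : c = 0 := hzero c (by rw [map_sum, ← hc]; simp only [map_smul, e])
    rw [this, Pi.zero_apply]
  have hmap : ∀ y ∈ Submodule.span K (Set.range l),
      ev (K := K) y ∈ Submodule.span K (Set.range e) := by
    intro y hy
    have := Submodule.mem_map_of_mem (f := ev (K := K) (F := F)) hy
    rw [Submodule.map_span, ← Set.range_comp] at this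
    exact this
  have hu := fun i => hmap (x0 i) (hx0 i)
  have huind := ev_linearIndependent x0 hx0ind
  have hmn : m + 1 ≤ n := by
    have h1 : LinearIndependent K (fun i => (⟨x0 i, hx0 i⟩ : Submodule.span K (Set.range l))) := by
      apply LinearIndependent.of_comp (Submodule.span K (Set.range l)).subtype
      exact hx0ind.linearIndependent
    have hfin : FiniteDimensional K (Submodule.span K (Set.range l)) :=
      FiniteDimensional.span_of_finite _ (Set.finite_range l)
    have h2 := h1.fintype_card_le_finrank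
    have h3 := finrank_range_le_card (R := K) l
    rw [Fintype.card_fin] at h2 h3
    exact h2.trans h3
  obtain ⟨G, hG0, hGdeg, hG⟩ := exists_G (m := m) (r := n - m) e he
    (by rw [Fintype.card_fin]; omega) _ hu huind
  refine ⟨G, hG0, fun d hd k => by rw [hGdeg d hd k]; omega, ?_⟩
  intro c x hx hc
  obtain ⟨h1, h2⟩ := hG c hc
  have hxe : ∀ k, ev (K := K) (x k) = ∑ j, c (k, j) • e j := by
    intro k
    rw [hx k, map_sum]
    simp only [map_smul, e]
  have hfun : (fun k => ∑ j, c (k, j) • e j) = fun k => ev (K := K) (x k) := by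
    funext k
    rw [hxe k]
  rw [hfun] at h1 h2
  intro y hy hyn
  apply algebraicIndependent_of_ev
  have hcons : (fun i => ev (K := K) ((Fin.cons y x : Fin (m + 1) → F) i)) =
      Fin.cons (ev (K := K) y) (fun k => ev (K := K) (x k)) := by
    funext i
    refine Fin.cases ?_ (fun k => ?_) i
    · rfl
    · rfl
  rw [hcons, linearIndependent_finCons]
  refine ⟨h1, fun hF => hyn ?_⟩
  have h3 := h2 (ev (K := K) y) (hmap y hy) hF
  obtain ⟨a, ha⟩ := (Submodule.mem_span_range_iff_exists_fun K).mp h3
  obtain ⟨b, hb⟩ := (Submodule.mem_span_range_iff_exists_fun K).mp hy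
  rw [Submodule.mem_span_range_iff_exists_fun K]
  refine ⟨a, ?_⟩
  have h4 : y - ∑ k, a k • x k = ∑ j, (b j - ∑ k, a k * c (k, j)) • l j := by
    rw [← hb]
    have h5 : ∑ k, a k • x k = ∑ j, (∑ k, a k * c (k, j)) • l j := by
      simp only [hx, Finset.smul_sum, Finset.sum_smul, smul_smul]
      rw [Finset.sum_comm]
    rw [h5, ← Finset.sum_sub_distrib]
    refine Finset.sum_congr rfl fun j _ => by rw [sub_smul]
  have h6 : ev (K := K) (y - ∑ k, a k • x k) = 0 := by
    rw [map_sub, map_sum, ← ha, sub_eq_zero]
    simp only [map_smul]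
  rw [h4] at h6
  have h7 := hzero _ h6
  have h8 : y - ∑ k, a k • x k = 0 := by
    rw [h4]
    apply Finset.sum_eq_zero
    intro j _
    have := congrFun h7 j
    simp only [Pi.zero_apply] at this
    rw [this, zero_smul]
  exact (sub_eq_zero.mp h8).symm

end MP60829e.TL
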