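import Pool.Agent.Lib.MP_60829e_nt.TL.Poly

/-! Change of coordinates for the polynomial `G`, and the number of its zeros. -/

set_option linter.unusedSectionVars false

namespace MP60829e.TL

open MvPolynomial

section
variable {K : Type*} [Field K] {m : ℕ} {ι κ : Type*} [Fintype ι] [Fintype κ]

/-- substitute `∑ j, P j i * X (k, j)` for the variable `(k, i)`. -/
noncomputable def subst (P : ι → κ → K) (G : MvPolynomial (Fin m × κ) K) :
    MvPolynomial (Fin m × ι) K :=
  bind₁ (fun i : Fin m × κ => ∑ j, C (P j i.2) * X (i.1, j)) G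

theorem eval_subst (P : ι → κ → K) (G : MvPolynomial (Fin m × κ) K) (c : Fin m × ι → K) :
    eval c (subst P G) = eval (fun i : Fin m × κ => ∑ j, P j i.2 * c (i.1, j)) G := by
  rw [subst, ← aeval_eq_eval, ← aeval_eq_eval, aeval_bind₁]
  congr 2
  funext i
  rw [map_sum]
  refine Finset.sum_congr rfl fun j _ => ?_
  rw [map_mul]
  simp

/-- homogeneous of degree `r` in each row. -/
theorem rows_iff {r : ℕ} (G : MvPolynomial (Fin m × ι) K) :
    (∀ d ∈ G.support, ∀ k, ∑ j, d (k, j) = r) ↔
      IsWeightedHomogeneous (fun i : Fin m × ι => (Pi.single i.1 1 : Fin m → ℕ)) G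
        (fun _ => r) := by
  have key : ∀ (d : Fin m × ι →₀ ℕ) (k : Fin m),
      Finsupp.weight (fun i : Fin m × ι => (Pi.single i.1 1 : Fin m → ℕ)) d k =
        ∑ j, d (k, j) := by
    intro d k
    rw [Finsupp.weight_apply, Finsupp.sum_fintype _ _ (by simp), Finset.sum_apply,
      Fintype.sum_prod_type]
    rw [Finset.sum_eq_single k]
    · refine Finset.sum_congr rfl fun j _ => ?_
      simp
    · intro b _ hb
      apply Finset.sum_eq_zero
      intro j _
      simp [Pi.single_eq_of_ne (Ne.symm hb)]
    · simp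
  constructor
  · intro h d hd
    funext k
    rw [key, h d (mem_support_iff.mpr hd) k]
  · intro h d hd k
    rw [← key, h (mem_support_iff.mp hd)]

theorem subst_rows {r : ℕ} (P : ι → κ → K) (G : MvPolynomial (Fin m × κ) K)
    (hG : ∀ d ∈ G.support, ∀ k, ∑ j, d (k, j) = r) :
    ∀ d ∈ (subst P G).support, ∀ k, ∑ j, d (k, j) = r := by
  classical
  rw [rows_iff]
  rw [subst, bind₁, aeval_def, eval₂_eq]
  refine IsWeightedHomogeneous.sum _ _ _ fun d hd => ?_
  refine IsWeightedHomogeneous.C_mul ?_ _
  have h := IsWeightedHomogeneous.prod (w := fun i : Fin m × ι => (Pi.single i.1 1 : Fin m → ℕ))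
    d.support (fun i : Fin m × κ => (∑ j, C (P j i.2) * X (i.1, j)) ^ d i)
    (fun i => d i • (Pi.single i.1 1 : Fin m → ℕ)) (fun i _ => by
      refine IsWeightedHomogeneous.pow ?_ _
      refine IsWeightedHomogeneous.sum _ _ _ fun j _ => ?_
      exact IsWeightedHomogeneous.C_mul (isWeightedHomogeneous_X K _ (i.1, j)) _)
  have h2 : (∑ i ∈ d.support, d i • (Pi.single i.1 1 : Fin m → ℕ)) = fun _ => r := by
    funext k
    rw [← hG d hd k]
    have h3 : (∑ i ∈ d.support, d i • (Pi.single i.1 1 : Fin m → ℕ)) =
        ∑ i, d i • (Pi.single i.1 1 : Fin m → ℕ) := by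
      apply Finset.sum_subset (Finset.subset_univ _)
      intro i _ hi
      rw [Finsupp.notMem_support_iff.mp hi, zero_smul]
    rw [h3, Finset.sum_apply, Fintype.sum_prod_type, Finset.sum_eq_single k]
    · refine Finset.sum_congr rfl fun j _ => ?_
      simp
    · intro b _ hb
      apply Finset.sum_eq_zero
      intro j _
      simp [Pi.single_eq_of_ne (Ne.symm hb)]
    · simp
  rwa [h2] at h

theorem totalDegree_le_of_rows {r : ℕ} (G : MvPolynomial (Fin m × ι) K)
    (hG : ∀ d ∈ G.support, ∀ k, ∑ j, d (k, j) = r) : G.totalDegree ≤ m * r := by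
  rw [totalDegree]
  refine Finset.sup_le fun d hd => ?_
  rw [Finsupp.sum_fintype _ _ (fun _ => rfl), Fintype.sum_prod_type]
  rw [Finset.sum_congr rfl fun k _ => hG d hd k]
  simp

/-- the zeros of a nonzero polynomial on a finite grid. -/
theorem card_zeros_le [DecidableEq K] {σ : Type*} [Fintype σ] [DecidableEq σ]
    (G : MvPolynomial σ K) (hG : G ≠ 0) (S : Finset K) :
    ((Fintype.piFinset fun _ : σ => S).filter fun c => eval c G = 0).card * S.card ≤
      G.totalDegree * S.card ^ Fintype.card σ := by
  classical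
  rcases S.eq_empty_or_nonempty with rfl | hS
  · simp
  let E : σ ≃ Fin (Fintype.card σ) := Fintype.equivFin σ
  have hG' : rename E G ≠ 0 := by
    intro h
    exact hG (rename_injective _ E.injective (by rw [h, map_zero]))
  have hdeg : (rename E G).totalDegree ≤ G.totalDegree := totalDegree_rename_le _ _
  have h := schwartz_zippel_totalDegree hG' S
  have hcard : ((Fintype.piFinset fun _ : σ => S).filter fun c => eval c G = 0).card =
      ((Fintype.piFinset fun _ : Fin (Fintype.card σ) => S).filter
        fun c => eval c (rename E G) = 0).card := by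
    apply Finset.card_bij' (fun c _ => fun i => c (E.symm i)) (fun c _ => fun i => c (E i))
    · intro c hc
      rw [Finset.mem_filter, Fintype.mem_piFinset] at hc ⊢
      refine ⟨fun i => hc.1 _, ?_⟩
      rw [eval_rename]
      have hcE : (fun i => c (E.symm i)) ∘ ⇑E = c := by
        funext i
        simp
      rw [hcE]
      exact hc.2
    · intro c hc
      rw [Finset.mem_filter, Fintype.mem_piFinset] at hc ⊢
      refine ⟨fun i => hc.1 _, ?_⟩
      have := hc.2
      rw [eval_rename] at this
      exact this
    · intro c _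
      funext i
      simp
    · intro c _
      funext i
      simp
  rw [hcard]
  have hpos : (0 : ℚ≥0) < (S.card : ℚ≥0) := by exact_mod_cast hS.card_pos
  rw [div_le_div_iff₀ (by positivity) hpos] at h
  have h2 : (((Fintype.piFinset fun _ : Fin (Fintype.card σ) => S).filter
        fun c => eval c (rename E G) = 0).card : ℚ≥0) * (S.card : ℚ≥0) ≤
      (G.totalDegree : ℚ≥0) * (S.card : ℚ≥0) ^ Fintype.card σ := by
    refine h.trans ?_
    gcongr
  exact_mod_cast h2

end

end MP60829e.TL
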