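import Pool.Agent.Lib.MP_60829e_nt.PS.DDer

/-! Elements of a field as functionals on its derivations. -/

set_option linter.unusedSectionVars false

namespace MP60829e.TL

section
variable {K F : Type*} [Field K] [CharZero K] [Field F] [Algebra K F]

/-- `x ↦ (D ↦ D x)`. -/
noncomputable def ev : F →ₗ[K] Module.Dual F (Derivation K F F) where
  toFun x :=
    { toFun := fun D => D x
      map_add' := fun _ _ => rfl
      map_smul' := fun _ _ => rfl }
  map_add' x y := by
    ext D
    exact map_add D x y
  map_smul' a x := by
    ext D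
    exact D.map_smul a x

theorem ev_apply (x : F) (D : Derivation K F F) : (ev (K := K) x) D = D x := rfl

theorem derivation_eq_zero_adjoin (D : Derivation K F F) (S : Set F) (hS : ∀ x ∈ S, D x = 0)
    (y : F) (hy : y ∈ IntermediateField.adjoin K S) : D y = 0 := by
  induction hy using IntermediateField.adjoin_induction with
  | mem x hx => exact hS x hx
  | algebraMap x => exact D.map_algebraMap x
  | add x y _ _ hx hy => rw [map_add, hx, hy, add_zero]
  | inv x _ hx => rw [D.leibniz_inv, hx, smul_zero]
  | mul x y _ _ hx hy => rw [D.leibniz, hx, hy, smul_zero, smul_zero, add_zero]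

theorem ev_mem_span {ι : Type*} [Finite ι] (x : ι → F) (y : F)
    (hy : IsAlgebraic (IntermediateField.adjoin K (Set.range x)) y) :
    ev (K := K) y ∈ Submodule.span F (Set.range fun i => ev (K := K) (x i)) := by
  apply mem_span_of_iInf_ker_le_ker
  intro D hD
  rw [Submodule.mem_iInf] at hD
  have hD' : ∀ i, D (x i) = 0 := fun i => LinearMap.mem_ker.mp (hD i)
  rw [LinearMap.mem_ker, ev_apply]
  have hchar : CharZero (IntermediateField.adjoin K (Set.range x)) :=
    charZero_of_injective_algebraMap (algebraMap K _).injective
  exact MP60829e.PS.derivation_eq_zero_of_isAlgebraic (D.restrictScalars ℤ) (fun a =>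
    derivation_eq_zero_adjoin D (Set.range x) (by rintro _ ⟨i, rfl⟩; exact hD' i) _ a.2) hy

theorem ev_linearIndependent {ι : Type*} [Finite ι] (x : ι → F) (hx : AlgebraicIndependent K x) :
    LinearIndependent F (fun i => ev (K := K) (x i)) := by
  classical
  have := Fintype.ofFinite ι
  rw [Fintype.linearIndependent_iff]
  intro g hg i
  obtain ⟨D, hD⟩ := MP60829e.PS.exists_derivation_of_algebraicIndependent hx (Pi.single i (1 : F))
  have h := congrArg (fun L : Module.Dual F (Derivation K F F) => L D) hg
  simp only [LinearMap.coe_sum, Finset.sum_apply, LinearMap.smul_apply, ev_apply, hD,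
    LinearMap.zero_apply, smul_eq_mul, Pi.single_apply, mul_ite, mul_one, mul_zero,
    Finset.sum_ite_eq', Finset.mem_univ, if_true] at h
  exact h

theorem algebraicIndependent_of_ev {ι : Type*} [Finite ι] (x : ι → F)
    (hx : LinearIndependent F (fun i => ev (K := K) (x i))) : AlgebraicIndependent K x := by
  apply algebraicIndependent_of_finite_type' (algebraMap K F).injective
  intro t ht _ i hi halg
  have hle : Algebra.adjoin K (x '' t) ≤ (IntermediateField.adjoin K
      (Set.range fun j : t => x j)).toSubalgebra := by
    rw [Algebra.adjoin_le_iff]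
    rintro _ ⟨j, hj, rfl⟩
    exact IntermediateField.subset_adjoin K _ ⟨⟨j, hj⟩, rfl⟩
  have halg' : IsAlgebraic (IntermediateField.adjoin K (Set.range fun j : t => x j)) (x i) :=
    halg.tower_top_of_subalgebra_le hle
  have hmem := ev_mem_span (fun j : t => x j) (x i) halg'
  have hn := linearIndependent_iff_notMem_span.mp hx i
  apply hn
  refine Submodule.span_mono ?_ hmem
  rintro _ ⟨j, rfl⟩
  refine ⟨j, ⟨Set.mem_univ _, ?_⟩, rfl⟩
  intro hji
  rw [Set.mem_singleton_iff] at hji
  exact hi (hji ▸ j.2)

end

end MP60829e.TL
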