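import Mathlib

/-! Two linear forms which are not proportional are coprime. -/

namespace MP60829e.TL

open MvPolynomial

/-- the linear form with coefficients `a`. -/
noncomputable def lin {ι F : Type*} [Fintype ι] [CommSemiring F] (a : ι → F) : MvPolynomial ι F :=
  ∑ j, C (a j) * X j

theorem coeff_lin {ι F : Type*} [Fintype ι] [CommSemiring F] (a : ι → F) (i : ι) :
    (lin a).coeff (Finsupp.single i 1) = a i := by
  classical
  rw [lin, coeff_sum, Finset.sum_eq_single i]
  · simp
  · intro j _ hji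
    rw [coeff_C_mul, coeff_X, if_neg, mul_zero]
    rwa [Finsupp.single_left_inj Nat.one_ne_zero]
  · simp

theorem lin_isHomogeneous {ι F : Type*} [Fintype ι] [CommSemiring F] (a : ι → F) :
    (lin a).IsHomogeneous 1 := by
  refine IsHomogeneous.sum _ _ _ fun j _ => ?_
  simpa using (isHomogeneous_C ι (a j)).mul (isHomogeneous_X F j)

theorem lin_ne_zero {ι F : Type*} [Fintype ι] [CommSemiring F] (a : ι → F) (ha : a ≠ 0) :
    lin a ≠ 0 := by
  intro h
  apply ha
  funext i
  rw [← coeff_lin a i, h]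
  simp

theorem totalDegree_lin {ι F : Type*} [Fintype ι] [Field F] (a : ι → F) (ha : a ≠ 0) :
    (lin a).totalDegree = 1 :=
  (lin_isHomogeneous a).totalDegree (lin_ne_zero a ha)

theorem lin_prime {ι F : Type*} [Fintype ι] [Field F] (a : ι → F) (ha : a ≠ 0) :
    Prime (lin a) := by
  apply Irreducible.prime
  apply irreducible_of_totalDegree_eq_one (totalDegree_lin a ha)
  intro x hx
  obtain ⟨i, hi⟩ := Function.ne_iff.mp ha
  have h := hx (Finsupp.single i 1)
  rw [coeff_lin] at h
  rw [isUnit_iff_ne_zero]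
  rintro rfl
  rw [zero_dvd_iff] at h
  exact hi h

theorem lin_dvd {ι F : Type*} [Fintype ι] [Field F] (a b : ι → F)
    (hab : LinearIndependent F ![a, b]) (P Q : MvPolynomial ι F)
    (h : P * lin b = Q * lin a) : ∃ r : MvPolynomial ι F, P = r * lin a := by
  have ha : a ≠ 0 := hab.ne_zero 0
  have hb : b ≠ 0 := hab.ne_zero 1
  have hp := lin_prime a ha
  have hdvd : lin a ∣ P * lin b := ⟨Q, by rw [h, mul_comm]⟩
  rcases hp.dvd_or_dvd hdvd with h1 | h1
  · obtain ⟨r, hr⟩ := h1
    exact ⟨r, by rw [hr, mul_comm]⟩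
  · exfalso
    obtain ⟨q, hq⟩ := h1
    have hq0 : q ≠ 0 := by
      rintro rfl
      rw [mul_zero] at hq
      exact lin_ne_zero b hb hq
    have hdeg := totalDegree_mul_of_isDomain (lin_ne_zero a ha) hq0
    rw [← hq, totalDegree_lin a ha, totalDegree_lin b hb] at hdeg
    obtain ⟨r, hr⟩ : ∃ r, q = C r := ⟨_, (totalDegree_eq_zero_iff_eq_C (p := q)).mp (by omega)⟩
    have hba : b = r • a := by
      funext i
      rw [← coeff_lin b i, hq, hr, mul_comm, coeff_C_mul, coeff_lin]
      rfl
    have := LinearIndependent.pair_iff.mp hab r (-1) (by rw [hba]; simp)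
    simp at this

end MP60829e.TL
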