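import Pool.Agent.Lib.MP_60829e_nt.TL.Kernel

/-! Existence of a good vector. -/

set_option linter.unusedSectionVars false

namespace MP60829e.TL

open MvPolynomial

section
variable {ι K F : Type*} [Field K] [Field F] [Algebra K F]
variable {W : Type*} [AddCommGroup W] [Module F W] [Module K W] [IsScalarTower K F W]

/-- the linear equations, with polynomial coefficients, for `F`-proportionality to the generic
point. -/
noncomputable def row [Fintype ι] (e : ι → W)
    (s : (W →ₗ[F] F) × (W →ₗ[F] F) × (F →ₗ[K] K)) (j : ι) : MvPolynomial ι K :=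
  push s.2.2 (C (s.1 (e j)) * lin (fun i => s.2.1 (e i)) -
    C (s.2.1 (e j)) * lin (fun i => s.1 (e i)))

theorem sum_row_mul [Fintype ι] (e : ι → W)
    (s : (W →ₗ[F] F) × (W →ₗ[F] F) × (F →ₗ[K] K)) (b : ι → MvPolynomial ι K) :
    ∑ j, row e s j * b j = push s.2.2 (bform (fun j => s.1 (e j)) b * lin (fun j => s.2.1 (e j)) -
      bform (fun j => s.2.1 (e j)) b * lin (fun j => s.1 (e j))) := by
  have h : bform (fun j => s.1 (e j)) b * lin (fun j => s.2.1 (e j)) -
      bform (fun j => s.2.1 (e j)) b * lin (fun j => s.1 (e j)) =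
      ∑ j, map (algebraMap K F) (b j) * (C (s.1 (e j)) * lin (fun i => s.2.1 (e i)) -
    C (s.2.1 (e j)) * lin (fun i => s.1 (e i))) := by
    rw [bform, bform, Finset.sum_mul, Finset.sum_mul, ← Finset.sum_sub_distrib]
    refine Finset.sum_congr rfl fun j _ => by ring
  rw [h, push_sum]
  refine Finset.sum_congr rfl fun j _ => ?_
  rw [push_map_mul, row, mul_comm]

theorem eval_row [Fintype ι] (e : ι → W)
    (s : (W →ₗ[F] F) × (W →ₗ[F] F) × (F →ₗ[K] K)) (c b : ι → K) :
    ∑ j, eval c (row e s j) * b j = s.2.2 (s.1 (∑ j, b j • e j) * s.2.1 (∑ j, c j • e j) -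
      s.2.1 (∑ j, b j • e j) * s.1 (∑ j, c j • e j)) := by
  have hlin : ∀ θ : W →ₗ[F] F, eval (fun i => algebraMap K F (c i)) (lin (fun i => θ (e i))) =
      θ (∑ j, c j • e j) := by
    intro θ
    rw [eval_lin, map_sum]
    refine Finset.sum_congr rfl fun j _ => ?_
    rw [← algebraMap_smul F, map_smul, smul_eq_mul, mul_comm]
  have hb : ∀ θ : W →ₗ[F] F, θ (∑ j, b j • e j) = ∑ j, algebraMap K F (b j) * θ (e j) := by
    intro θ
    rw [map_sum]
    refine Finset.sum_congr rfl fun j _ => ?_
    rw [← algebraMap_smul F, map_smul, smul_eq_mul]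
  have : ∀ j, eval c (row e s j) * b j = s.2.2 (algebraMap K F (b j) *
      (s.1 (e j) * s.2.1 (∑ j, c j • e j) - s.2.1 (e j) * s.1 (∑ j, c j • e j))) := by
    intro j
    rw [row, eval_push, map_sub, map_mul, map_mul, eval_C, eval_C, hlin, hlin,
      ← Algebra.smul_def, map_smul, smul_eq_mul, mul_comm]
  rw [Finset.sum_congr rfl fun j _ => this j, ← map_sum]
  congr 1
  rw [hb, hb, Finset.sum_mul, Finset.sum_mul, ← Finset.sum_sub_distrib]
  refine Finset.sum_congr rfl fun j _ => by ring

theorem mem_span_cleared {R L κ : Type*} [CommRing R] [IsDomain R] [Field L] [Algebra R L]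
    [IsFractionRing R L] (r : κ → ι → R) (x : ι → L)
    (hx : x ∈ Submodule.span L (Set.range fun s => fun k => algebraMap R L (r s k))) :
    ∃ q : R, q ≠ 0 ∧ ∃ y ∈ Submodule.span R (Set.range r),
      ∀ k, algebraMap R L q * x k = algebraMap R L (y k) := by
  induction hx using Submodule.span_induction with
  | mem x hx =>
    obtain ⟨s, rfl⟩ := hx
    exact ⟨1, one_ne_zero, r s, Submodule.subset_span ⟨s, rfl⟩, fun k => by simp⟩
  | zero => exact ⟨1, one_ne_zero, 0, Submodule.zero_mem _, fun k => by simp⟩
  | add x y _ _ hx hy =>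
    obtain ⟨q1, hq1, y1, hy1, h1⟩ := hx
    obtain ⟨q2, hq2, y2, hy2, h2⟩ := hy
    refine ⟨q1 * q2, mul_ne_zero hq1 hq2, q2 • y1 + q1 • y2,
      Submodule.add_mem _ (Submodule.smul_mem _ _ hy1) (Submodule.smul_mem _ _ hy2), fun k => ?_⟩
    simp only [Pi.add_apply, Pi.smul_apply, smul_eq_mul, map_add, map_mul, ← h1, ← h2]
    ring
  | smul a x _ hx =>
    obtain ⟨q, hq, y, hy, h⟩ := hx
    obtain ⟨p, q', hq', rfl⟩ := IsFractionRing.div_surjective (A := R) a
    refine ⟨q' * q, mul_ne_zero (nonZeroDivisors.ne_zero hq') hq, p • y,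
      Submodule.smul_mem _ _ hy, fun k => ?_⟩
    have h0 : algebraMap R L q' ≠ 0 := by
      rw [Ne, IsFractionRing.to_map_eq_zero_iff]
      exact nonZeroDivisors.ne_zero hq'
    simp only [Pi.smul_apply, smul_eq_mul, map_mul, ← h]
    field_simp

theorem exists_good [IsAlgClosed K] [Fintype ι] (e : ι → W) (he : LinearIndependent K e)
    (φ ψ : W →ₗ[F] F)
    (hφψ : LinearIndependent F ![fun j => φ (e j), fun j => ψ (e j)]) :
    ∃ c : ι → K, c ≠ 0 ∧ ∀ (b : ι → K) (μ : F), ∑ j, b j • e j = μ • ∑ j, c j • e j →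
      ∃ a : K, b = a • c := by
  classical
  obtain ⟨i0, hi0⟩ := Function.ne_iff.mp (hφψ.ne_zero 0)
  let R := MvPolynomial ι K
  let L := FractionRing R
  let ρ : ι → ι → R := fun j k => X i0 * (if k = j then 1 else 0) - X j * (if k = i0 then 1 else 0)
  have key : ∀ j, ∃ q : R, q ≠ 0 ∧ ∃ y ∈ Submodule.span R (Set.range (row (K := K) (F := F) e)),
      ∀ k, q * ρ j k = y k := by
    intro j
    have hmem : (fun k => algebraMap R L (ρ j k)) ∈
        Submodule.span L (Set.range fun s => fun k => algebraMap R L (row (K := K) (F := F) e s k)) := by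
      by_contra hn
      obtain ⟨Λ, hΛ, hker⟩ := Submodule.exists_le_ker_of_notMem hn
      obtain ⟨d, hd⟩ := IsLocalization.exist_integer_multiples_of_finite (nonZeroDivisors R)
        (fun k : ι => Λ (Pi.single k 1))
      choose b hb using hd
      have hΛsum : ∀ x : ι → L, Λ x = ∑ k, x k * Λ (Pi.single k 1) := by
        intro x
        conv_lhs => rw [← Finset.univ_sum_single x]
        rw [map_sum]
        refine Finset.sum_congr rfl fun k _ => ?_
        have : (Pi.single k (x k) : ι → L) = x k • Pi.single k (1 : L) := by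
          rw [← Pi.single_smul, smul_eq_mul, mul_one]
        rw [this, map_smul, smul_eq_mul]
      have hd0 : algebraMap R L (d : R) ≠ 0 := by
        rw [Ne, IsFractionRing.to_map_eq_zero_iff]
        exact nonZeroDivisors.ne_zero d.2
      have hb' : ∀ k, algebraMap R L (b k) = algebraMap R L (d : R) * Λ (Pi.single k 1) := by
        intro k
        rw [hb k, Algebra.smul_def]
      have hrow : ∀ s : (W →ₗ[F] F) × (W →ₗ[F] F) × (F →ₗ[K] K), ∑ k, row e s k * b k = 0 := by
        intro s
        apply IsFractionRing.injective R L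
        rw [map_zero, map_sum]
        have h1 : Λ (fun k => algebraMap R L (row e s k)) = 0 :=
          LinearMap.mem_ker.mp (hker (Submodule.subset_span ⟨s, rfl⟩))
        rw [hΛsum] at h1
        calc ∑ k, algebraMap R L (row e s k * b k)
            = algebraMap R L (d : R) * ∑ k, algebraMap R L (row e s k) * Λ (Pi.single k 1) := by
              rw [Finset.mul_sum]
              refine Finset.sum_congr rfl fun k _ => ?_
              rw [map_mul, hb']
              ring
          _ = 0 := by rw [h1, mul_zero]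
      obtain ⟨p, hp⟩ := kernel e he φ ψ hφψ b (by
        intro φ' ψ'
        rw [← sub_eq_zero]
        apply eq_zero_of_push (K := K)
        intro χ
        have := hrow (φ', ψ', χ)
        rwa [sum_row_mul] at this)
      apply hΛ
      have h2 : algebraMap R L (d : R) * Λ (fun k => algebraMap R L (ρ j k)) = 0 := by
        rw [hΛsum, Finset.mul_sum]
        have : ∀ k, algebraMap R L (d : R) * (algebraMap R L (ρ j k) * Λ (Pi.single k 1)) =
            algebraMap R L (ρ j k * b k) := by
          intro k
          rw [map_mul, hb']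
          ring
        rw [Finset.sum_congr rfl fun k _ => this k, ← map_sum]
        have h3 : ∑ k, ρ j k * b k = 0 := by
          simp only [ρ, sub_mul, Finset.sum_sub_distrib, ite_mul, zero_mul,
            mul_ite, mul_zero, Finset.sum_ite_eq', Finset.mem_univ, if_true, mul_one]
          rw [hp j, hp i0]
          ring
        rw [h3, map_zero]
      exact (mul_eq_zero.mp h2).resolve_left hd0
    obtain ⟨q, hq, y, hy, h⟩ := mem_span_cleared _ _ hmem
    refine ⟨q, hq, y, hy, fun k => ?_⟩
    apply IsFractionRing.injective R L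
    rw [← h k, map_mul]
  choose q hq y hy hqy using key
  have hprod : (∏ j, q j) * X i0 ≠ 0 :=
    mul_ne_zero (Finset.prod_ne_zero_iff.mpr fun j _ => hq j) (X_ne_zero i0)
  have : Infinite K := IsAlgClosed.instInfinite
  obtain ⟨c, hc⟩ : ∃ c : ι → K, eval c ((∏ j, q j) * X i0) ≠ 0 := by
    by_contra hall
    push Not at hall
    exact hprod (MvPolynomial.funext fun c => by rw [hall c, map_zero])
  rw [map_mul, map_prod, eval_X] at hc
  have hc0 : c i0 ≠ 0 := right_ne_zero_of_mul hc
  have hqc : ∀ j, eval c (q j) ≠ 0 := by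
    intro j
    exact Finset.prod_ne_zero_iff.mp (left_ne_zero_of_mul hc) j (Finset.mem_univ j)
  refine ⟨c, fun h => hc0 (congrFun h i0), ?_⟩
  intro b μ hbμ
  have hspan : ∀ z ∈ Submodule.span R (Set.range (row (K := K) (F := F) e)),
      ∑ k, eval c (z k) * b k = 0 := by
    intro z hz
    induction hz using Submodule.span_induction with
    | mem z hz =>
      obtain ⟨s, rfl⟩ := hz
      rw [eval_row, hbμ, map_smul, map_smul, smul_eq_mul, smul_eq_mul]
      have : μ * s.1 (∑ j, c j • e j) * s.2.1 (∑ j, c j • e j) -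
          μ * s.2.1 (∑ j, c j • e j) * s.1 (∑ j, c j • e j) = 0 := by ring
      rw [this, map_zero]
    | zero => simp
    | add z1 z2 _ _ h1 h2 =>
      simp only [Pi.add_apply, map_add, add_mul, Finset.sum_add_distrib, h1, h2, add_zero]
    | smul a z _ h =>
      simp only [Pi.smul_apply, smul_eq_mul, map_mul, mul_assoc, ← Finset.mul_sum, h, mul_zero]
  refine ⟨b i0 / c i0, ?_⟩
  funext j
  have h1 := hspan (y j) (hy j)
  have h2 : ∑ k, eval c (y j k) * b k = eval c (q j) * (c i0 * b j - c j * b i0) := by
    have : ∀ k, eval c (y j k) * b k = eval c (q j) * ((c i0 * if k = j then b k else 0) -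
        c j * if k = i0 then b k else 0) := by
      intro k
      rw [← hqy j k, map_mul]
      simp only [ρ, map_sub, map_mul, eval_X]
      split_ifs <;> simp <;> ring
    rw [Finset.sum_congr rfl fun k _ => this k, ← Finset.mul_sum, Finset.sum_sub_distrib,
      ← Finset.mul_sum, ← Finset.mul_sum, Finset.sum_ite_eq' Finset.univ j,
      Finset.sum_ite_eq' Finset.univ i0]
    simp
  rw [h2] at h1
  have h3 := (mul_eq_zero.mp h1).resolve_left (hqc j)
  rw [Pi.smul_apply, smul_eq_mul]
  field_simp
  linear_combination h3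

end

end MP60829e.TL
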