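import Pool.Agent.Lib.MP_60829e_nt.TL.Val

/-! The generic point of a finite dimensional `K`-space `U` in an `F`-vector space: a polynomial
vector which is `F`-proportional to the generic point is a polynomial multiple of it. -/

namespace MP60829e.TL

open MvPolynomial

section
variable {ι K F : Type*} [Field K] [Field F] [Algebra K F]

/-- the value of the linear form with coefficients `a` at the polynomial vector `b`. -/
noncomputable def bform [Fintype ι] (a : ι → F) (b : ι → MvPolynomial ι K) : MvPolynomial ι F :=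
  ∑ j, C (a j) * map (algebraMap K F) (b j)

theorem bform_mul_X [Fintype ι] (a : ι → F) (p : MvPolynomial ι K) :
    bform a (fun j => p * X j) = map (algebraMap K F) p * lin a := by
  rw [bform, lin, Finset.mul_sum]
  refine Finset.sum_congr rfl fun j _ => ?_
  rw [map_mul, map_X]
  ring

theorem bform_sub [Fintype ι] (a : ι → F) (b b' : ι → MvPolynomial ι K) :
    bform a (fun j => b j - b' j) = bform a b - bform a b' := by
  rw [bform, bform, bform, ← Finset.sum_sub_distrib]
  refine Finset.sum_congr rfl fun j _ => ?_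
  rw [map_sub]
  ring

theorem coeff_bform [Fintype ι] (a : ι → F) (b : ι → MvPolynomial ι K) (d : ι →₀ ℕ) :
    (bform a b).coeff d = ∑ j, a j * algebraMap K F ((b j).coeff d) := by
  rw [bform, coeff_sum]
  refine Finset.sum_congr rfl fun j _ => ?_
  rw [coeff_C_mul, coeff_map]

variable {W : Type*} [AddCommGroup W] [Module F W] [Module K W] [IsScalarTower K F W]

theorem kernel [IsAlgClosed K] [Fintype ι] (e : ι → W) (he : LinearIndependent K e)
    (φ ψ : W →ₗ[F] F)
    (hφψ : LinearIndependent F ![fun j => φ (e j), fun j => ψ (e j)])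
    (b : ι → MvPolynomial ι K)
    (hb : ∀ φ' ψ' : W →ₗ[F] F,
      bform (fun j => φ' (e j)) b * lin (fun j => ψ' (e j)) =
        bform (fun j => ψ' (e j)) b * lin (fun j => φ' (e j))) :
    ∃ p : MvPolynomial ι K, ∀ j, b j = p * X j := by
  have hφ0 : (fun j => φ (e j)) ≠ 0 := hφψ.ne_zero 0
  obtain ⟨r, hr⟩ := lin_dvd _ _ hφψ _ _ (hb φ ψ)
  obtain ⟨p, hp⟩ := exists_lift (fun j => φ (e j)) hφ0 r b hr.symm
  refine ⟨p, ?_⟩
  have hall : ∀ φ' : W →ₗ[F] F, bform (fun j => φ' (e j)) (fun j => b j - p * X j) = 0 := by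
    intro φ'
    rw [bform_sub, bform_mul_X, hp, sub_eq_zero]
    apply mul_right_cancel₀ (lin_ne_zero _ hφ0)
    rw [hb φ' φ, hr]
    ring
  have hzero : ∀ d, ∀ j, (b j - p * X j).coeff d = 0 := by
    intro d
    apply Fintype.linearIndependent_iff.mp he
    by_contra hne
    obtain ⟨φ', hφ', -⟩ := Submodule.exists_le_ker_of_notMem (K := F) (p := ⊥)
      (v := ∑ j, (b j - p * X j).coeff d • e j) (by simpa using hne)
    apply hφ'
    have h := congrArg (coeff d) (hall φ')
    rw [coeff_bform, coeff_zero] at h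
    rw [map_sum, ← h]
    refine Finset.sum_congr rfl fun j _ => ?_
    rw [← algebraMap_smul F, map_smul, smul_eq_mul, mul_comm]
  intro j
  rw [← sub_eq_zero]
  ext d
  rw [hzero d j, coeff_zero]

end

end MP60829e.TL
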