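import Pool.Agent.Lib.MP_60829e_nt.TL.Forms

/-! Applying a `K`-linear functional of `F` to the coefficients of a polynomial over `F`. -/

namespace MP60829e.TL

open MvPolynomial

section
variable {ι K F : Type*} [Field K] [Field F] [Algebra K F]

/-- apply the functional `χ` to all coefficients. -/
noncomputable def push (χ : F →ₗ[K] K) (p : MvPolynomial ι F) : MvPolynomial ι K :=
  ∑ d ∈ p.support, monomial d (χ (p.coeff d))

theorem coeff_push (χ : F →ₗ[K] K) (p : MvPolynomial ι F) (d : ι →₀ ℕ) :
    (push χ p).coeff d = χ (p.coeff d) := by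
  classical
  rw [push, coeff_sum]
  simp only [coeff_monomial]
  rw [Finset.sum_ite_eq' p.support d]
  split_ifs with h
  · rfl
  · rw [notMem_support_iff.mp h, map_zero]

theorem push_add (χ : F →ₗ[K] K) (p q : MvPolynomial ι F) :
    push χ (p + q) = push χ p + push χ q := by
  ext d
  simp [coeff_push]

theorem push_sub (χ : F →ₗ[K] K) (p q : MvPolynomial ι F) :
    push χ (p - q) = push χ p - push χ q := by
  ext d
  simp [coeff_push]

theorem push_zero (χ : F →ₗ[K] K) : push χ (0 : MvPolynomial ι F) = 0 := by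
  ext d
  simp [coeff_push]

theorem push_sum (χ : F →ₗ[K] K) {κ : Type*} (s : Finset κ) (p : κ → MvPolynomial ι F) :
    push χ (∑ i ∈ s, p i) = ∑ i ∈ s, push χ (p i) := by
  ext d
  simp [coeff_push, coeff_sum]

theorem push_map_mul (χ : F →ₗ[K] K) (b : MvPolynomial ι K) (p : MvPolynomial ι F) :
    push χ (map (algebraMap K F) b * p) = b * push χ p := by
  classical
  ext d
  rw [coeff_push, coeff_mul, coeff_mul, map_sum]
  refine Finset.sum_congr rfl fun x _ => ?_
  rw [coeff_map, coeff_push, ← Algebra.smul_def, map_smul, smul_eq_mul]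

theorem support_push (χ : F →ₗ[K] K) (p : MvPolynomial ι F) :
    (push χ p).support ⊆ p.support := by
  intro d hd
  rw [mem_support_iff, coeff_push] at hd
  rw [mem_support_iff]
  rintro h
  rw [h, map_zero] at hd
  exact hd rfl

theorem eval_push (χ : F →ₗ[K] K) (p : MvPolynomial ι F) (c : ι → K) :
    eval c (push χ p) = χ (eval (fun i => algebraMap K F (c i)) p) := by
  rw [push, map_sum, eval_eq, map_sum]
  refine Finset.sum_congr rfl fun d _ => ?_
  rw [eval_monomial]
  have h : ∏ i ∈ d.support, (algebraMap K F (c i)) ^ d i =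
      algebraMap K F (∏ i ∈ d.support, c i ^ d i) := by
    rw [map_prod]
    simp
  rw [h, mul_comm (p.coeff d), ← Algebra.smul_def, map_smul, smul_eq_mul, mul_comm]
  rfl

/-- a polynomial over `F` killed by all functionals is zero. -/
theorem eq_zero_of_push (p : MvPolynomial ι F) (h : ∀ χ : F →ₗ[K] K, push χ p = 0) : p = 0 := by
  ext d
  rw [coeff_zero]
  by_contra hd
  obtain ⟨χ, hχ, -⟩ := Submodule.exists_le_ker_of_notMem (K := K) (p := ⊥) (v := p.coeff d)
    (by simpa using hd)
  apply hχ
  rw [← coeff_push, h χ, coeff_zero]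

end

end MP60829e.TL
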