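import Pool.Agent.Lib.MP_60829e_nt.TL.Good

/-! Existence of good tuples. -/

set_option linter.unusedSectionVars false

namespace MP60829e.TL

section
variable {K F : Type*} [Field K] [Field F] [Algebra K F]
variable {W : Type*} [AddCommGroup W] [Module F W] [Module K W] [IsScalarTower K F W]

theorem good_vec [IsAlgClosed K] (U : Submodule K W) [FiniteDimensional K U] (u₀ u₁ : W)
    (h₀ : u₀ ∈ U) (h₁ : u₁ ∈ U) (hind : LinearIndependent F ![u₀, u₁]) :
    ∃ v ∈ U, v ≠ 0 ∧ ∀ y ∈ U, ∀ μ : F, y = μ • v → ∃ a : K, y = a • v := by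
  classical
  have hpair := LinearIndependent.pair_iff.mp hind
  have hu0 : u₀ ∉ Submodule.span F {u₁} := by
    intro h
    obtain ⟨t, ht⟩ := Submodule.mem_span_singleton.mp h
    have := hpair 1 (-t) (by rw [one_smul, neg_smul, ht, add_neg_cancel])
    exact one_ne_zero this.1
  have hu1 : u₁ ∉ Submodule.span F {u₀} := by
    intro h
    obtain ⟨t, ht⟩ := Submodule.mem_span_singleton.mp h
    have := hpair (-t) 1 (by rw [one_smul, neg_smul, ht, neg_add_cancel])
    exact one_ne_zero this.2
  obtain ⟨φ, hφ, hφk⟩ := Submodule.exists_le_ker_of_notMem hu0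
  obtain ⟨ψ, hψ, hψk⟩ := Submodule.exists_le_ker_of_notMem hu1
  have hφ1 : φ u₁ = 0 := LinearMap.mem_ker.mp (hφk (Submodule.mem_span_singleton_self _))
  have hψ0 : ψ u₀ = 0 := LinearMap.mem_ker.mp (hψk (Submodule.mem_span_singleton_self _))
  let B := Module.finBasis K U
  let e : Fin (Module.finrank K U) → W := fun j => (B j : W)
  have he : LinearIndependent K e := by
    have := B.linearIndependent.map' U.subtype (Submodule.ker_subtype U)
    exact this
  have hrep : ∀ y ∈ U, ∃ b : Fin (Module.finrank K U) → K, y = ∑ j, b j • e j := by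
    intro y hy
    refine ⟨fun j => B.repr ⟨y, hy⟩ j, ?_⟩
    have := congrArg (fun z : U => (z : W)) (B.sum_repr ⟨y, hy⟩)
    simp only [Submodule.coe_sum, Submodule.coe_smul] at this
    exact this.symm
  have hind2 : LinearIndependent F ![fun j => φ (e j), fun j => ψ (e j)] := by
    rw [LinearIndependent.pair_iff]
    intro s t hst
    have hz : ∀ y ∈ U, s * φ y + t * ψ y = 0 := by
      intro y hy
      obtain ⟨b, rfl⟩ := hrep y hy
      have h1 : ∀ θ : W →ₗ[F] F, θ (∑ j, b j • e j) = ∑ j, algebraMap K F (b j) * θ (e j) := by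
        intro θ
        rw [map_sum]
        refine Finset.sum_congr rfl fun j _ => ?_
        rw [← algebraMap_smul F, map_smul, smul_eq_mul]
      rw [h1, h1, Finset.mul_sum, Finset.mul_sum, ← Finset.sum_add_distrib]
      apply Finset.sum_eq_zero
      intro j _
      have h2 := congrFun hst j
      simp only [Pi.add_apply, Pi.smul_apply, smul_eq_mul, Pi.zero_apply] at h2
      calc s * (algebraMap K F (b j) * φ (e j)) + t * (algebraMap K F (b j) * ψ (e j))
          = algebraMap K F (b j) * (s * φ (e j) + t * ψ (e j)) := by ring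
        _ = 0 := by rw [h2, mul_zero]
    constructor
    · have := hz u₀ h₀
      rw [hψ0, mul_zero, add_zero] at this
      exact (mul_eq_zero.mp this).resolve_right hφ
    · have := hz u₁ h₁
      rw [hφ1, mul_zero, zero_add] at this
      exact (mul_eq_zero.mp this).resolve_right hψ
  obtain ⟨c, hc0, hc⟩ := exists_good e he φ ψ hind2
  refine ⟨∑ j, c j • e j, ?_, ?_, ?_⟩
  · exact sum_mem fun j _ => U.smul_mem _ (B j).2
  · intro h0
    apply hc0
    funext j
    exact Fintype.linearIndependent_iff.mp he c h0 j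
  · intro y hy μ hyμ
    obtain ⟨b, rfl⟩ := hrep y hy
    obtain ⟨a, rfl⟩ := hc b μ hyμ
    refine ⟨a, ?_⟩
    rw [Finset.smul_sum]
    refine Finset.sum_congr rfl fun j _ => ?_
    rw [Pi.smul_apply, smul_eq_mul, mul_smul]

theorem exists_pair {m : ℕ} (S : Submodule F W) (hS : Module.finrank F S ≤ m)
    [FiniteDimensional F S] (u : Fin (m + 2) → W) (hu : LinearIndependent F u) :
    ∃ i j, LinearIndependent F ![S.mkQ (u i), S.mkQ (u j)] := by
  by_contra hne
  push Not at hne
  obtain ⟨w, hw⟩ : ∃ w : W, ∀ i, S.mkQ (u i) ∈ Submodule.span F {S.mkQ w} := by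
    by_cases h0 : ∀ i, S.mkQ (u i) = 0
    · exact ⟨0, fun i => by rw [h0 i]; exact Submodule.zero_mem _⟩
    · push Not at h0
      obtain ⟨i, hi⟩ := h0
      refine ⟨u i, fun j => ?_⟩
      have h1 := hne i j
      rw [LinearIndependent.pair_iff] at h1
      push Not at h1
      obtain ⟨s, t, hst, hne'⟩ := h1
      have ht : t ≠ 0 := by
        rintro rfl
        rw [zero_smul, add_zero, smul_eq_zero] at hst
        exact hne' (hst.resolve_right hi) rfl
      rw [Submodule.mem_span_singleton]
      refine ⟨-(t⁻¹ * s), ?_⟩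
      have h2 : t • S.mkQ (u j) = -(s • S.mkQ (u i)) := by
        rw [eq_neg_iff_add_eq_zero, add_comm]
        exact hst
      calc -(t⁻¹ * s) • S.mkQ (u i) = t⁻¹ • (-(s • S.mkQ (u i))) := by
            rw [smul_neg, smul_smul, neg_smul]
        _ = t⁻¹ • t • S.mkQ (u j) := by rw [h2]
        _ = S.mkQ (u j) := by rw [smul_smul, inv_mul_cancel₀ ht, one_smul]
  let T : Submodule F W := S ⊔ Submodule.span F {w}
  have hT : ∀ i, u i ∈ T := by
    intro i
    obtain ⟨t, ht⟩ := Submodule.mem_span_singleton.mp (hw i)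
    have h3 : u i - t • w ∈ S := by
      rw [← Submodule.ker_mkQ S, LinearMap.mem_ker, map_sub, map_smul, ← ht, sub_self]
    have h4 : u i = (u i - t • w) + t • w := by abel
    rw [h4]
    exact Submodule.add_mem_sup h3 (Submodule.smul_mem _ _ (Submodule.mem_span_singleton_self w))
  have hfinT : FiniteDimensional F T := Submodule.finiteDimensional_sup _ _
  have hrank : Module.finrank F T ≤ m + 1 := by
    have h5 := Submodule.finrank_add_le_finrank_add_finrank S (Submodule.span F {w})
    have h6 : Module.finrank F (Submodule.span F {w}) ≤ 1 := by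
      simpa using finrank_span_le_card (R := F) ({w} : Set W)
    exact le_trans h5 (by omega)
  have hli : LinearIndependent F (fun i => (⟨u i, hT i⟩ : T)) := by
    apply LinearIndependent.of_comp T.subtype
    exact hu
  have := hli.fintype_card_le_finrank
  rw [Fintype.card_fin] at this
  omega

theorem exists_good_tuple [IsAlgClosed K] (m : ℕ) (U : Submodule K W) [FiniteDimensional K U]
    (u : Fin (m + 1) → W) (hu : ∀ i, u i ∈ U) (hind : LinearIndependent F u) :
    ∃ v : Fin m → W, (∀ i, v i ∈ U) ∧ LinearIndependent F v ∧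
      ∀ y ∈ U, y ∈ Submodule.span F (Set.range v) → y ∈ Submodule.span K (Set.range v) := by
  induction m with
  | zero =>
    refine ⟨Fin.elim0, fun i => i.elim0, linearIndependent_empty_type, ?_⟩
    intro y _ hy
    rw [Set.range_eq_empty, Submodule.span_empty, Submodule.mem_bot] at hy
    rw [hy]
    exact Submodule.zero_mem _
  | succ m ih =>
    obtain ⟨v, hv, hvind, hgood⟩ := ih (fun i => u i.castSucc) (fun i => hu _)
      (hind.comp _ (Fin.castSucc_injective _))
    let S : Submodule F W := Submodule.span F (Set.range v)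
    have hfin : FiniteDimensional F S := FiniteDimensional.span_of_finite _ (Set.finite_range v)
    have hrank : Module.finrank F S ≤ m := by
      have := finrank_range_le_card (R := F) v
      rw [Fintype.card_fin] at this
      exact this
    obtain ⟨i, j, hij⟩ := exists_pair S hrank u hind
    let π : W →ₗ[K] (W ⧸ S) := S.mkQ.restrictScalars K
    let U' : Submodule K (W ⧸ S) := U.map π
    have hfinU : FiniteDimensional K U' := inferInstance
    obtain ⟨v', hv', hv0, hgood'⟩ := good_vec (F := F) U' (S.mkQ (u i)) (S.mkQ (u j))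
      ⟨u i, hu i, rfl⟩ ⟨u j, hu j, rfl⟩ hij
    obtain ⟨w, hw, rfl⟩ := hv'
    have hwS : w ∉ S := by
      intro h
      apply hv0
      show S.mkQ w = 0
      rwa [← LinearMap.mem_ker, Submodule.ker_mkQ]
    refine ⟨Fin.cons w v, ?_, ?_, ?_⟩
    · intro k
      refine Fin.cases ?_ (fun k => ?_) k
      · exact hw
      · exact hv k
    · rw [linearIndependent_finCons]
      exact ⟨hvind, hwS⟩
    · intro y hy hyS
      rw [Fin.range_cons, Submodule.mem_span_insert] at hyS
      obtain ⟨μ, s, hs, rfl⟩ := hyS
      have hπ : S.mkQ (μ • w + s) = μ • S.mkQ w := by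
        have : S.mkQ s = 0 := by rwa [← LinearMap.mem_ker, Submodule.ker_mkQ]
        rw [map_add, this, add_zero, map_smul]
      obtain ⟨a, ha⟩ := hgood' (S.mkQ (μ • w + s)) ⟨_, hy, rfl⟩ μ hπ
      have hmem : μ • w + s - a • w ∈ S := by
        rw [← Submodule.ker_mkQ S, LinearMap.mem_ker, map_sub, ha, sub_eq_zero]
        rfl
      have h2 := hgood (μ • w + s - a • w) (U.sub_mem hy (U.smul_mem a hw)) hmem
      rw [Fin.range_cons, Submodule.mem_span_insert]
      exact ⟨a, _, h2, by abel⟩

end

end MP60829e.TL
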