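import Pool.Agent.Lib.MP_60829e_nt.TL.Push

/-! If `lam * f` is a polynomial combination over `K` of the coefficients of the linear form `f`,
then `lam` has coefficients in `K` (valuation rings). -/

namespace MP60829e.TL

open MvPolynomial

theorem eval_lin {ι F : Type*} [Fintype ι] [CommSemiring F] (a c : ι → F) :
    eval c (lin a) = ∑ j, a j * c j := by
  simp [lin, map_sum]

section
variable {ι K F : Type*} [Field K] [Field F] [Algebra K F]

/-- a polynomial over `F` whose values at the points of `K^ι` outside a hyperplane lie in a
valuation ring has its coefficients in this valuation ring. -/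
theorem coeff_mem_of_eval_mem [Infinite K] [Fintype ι] (V : ValuationSubring F)
    (hV : ∀ x : K, algebraMap K F x ∈ V) (lam : MvPolynomial ι F) (h : ι → K) (h0 : h ≠ 0)
    (hval : ∀ c : ι → K, ∑ j, h j * c j ≠ 0 → eval (fun i => algebraMap K F (c i)) lam ∈ V)
    (d : ι →₀ ℕ) : lam.coeff d ∈ V := by
  by_contra hd
  let VS : Submodule K F :=
    { carrier := V
      add_mem' := fun {a b} ha hb => V.add_mem _ _ ha hb
      zero_mem' := V.zero_mem
      smul_mem' := fun c x hx => by
        rw [Algebra.smul_def]
        exact V.mul_mem _ _ (hV c) hx }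
  obtain ⟨χ, hχ, hker⟩ := Submodule.exists_le_ker_of_notMem (K := K) (p := VS)
    (v := lam.coeff d) hd
  apply hχ
  have hzero : push χ lam * lin h = 0 := by
    apply MvPolynomial.funext
    intro c
    rw [map_mul, map_zero, eval_lin, eval_push]
    by_cases hc : ∑ j, h j * c j = 0
    · rw [hc, mul_zero]
    · have : eval (fun i => algebraMap K F (c i)) lam ∈ VS := hval c hc
      rw [LinearMap.mem_ker.mp (hker this), zero_mul]
  rcases mul_eq_zero.mp hzero with h1 | h1
  · rw [← coeff_push, h1, coeff_zero]
  · exact absurd h1 (lin_ne_zero h h0)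

theorem exists_lift_of_valuation [IsAlgClosed K] (lam : MvPolynomial ι F)
    (h : ∀ V : ValuationSubring F, (∀ x : K, algebraMap K F x ∈ V) → ∀ d, lam.coeff d ∈ V) :
    ∃ p : MvPolynomial ι K, map (algebraMap K F) p = lam := by
  have hc : lam ∈ Set.range (MvPolynomial.map (σ := ι) (algebraMap K F)) := by
    rw [mem_range_map_iff_coeffs_subset]
    intro x hx
    rw [Finset.mem_coe, mem_coeffs_iff] at hx
    obtain ⟨d, -, rfl⟩ := hx
    have hint : lam.coeff d ∈ (integralClosure K F).toSubring := by
      by_contra hn
      obtain ⟨V, hV, hx⟩ := Subring.exists_le_valuationSubring_of_isIntegrallyClosedIn hn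
      exact hx (h V (fun y => hV ((integralClosure K F).algebraMap_mem y)) d)
    have hint' : IsIntegral K (lam.coeff d) := hint
    have := minpoly.mem_range_of_degree_eq_one K (lam.coeff d)
      (IsAlgClosed.degree_eq_one_of_irreducible K (minpoly.irreducible hint'))
    simpa using this
  exact hc

theorem exists_lift [IsAlgClosed K] [Fintype ι] (a : ι → F) (ha : a ≠ 0)
    (lam : MvPolynomial ι F) (b : ι → MvPolynomial ι K)
    (h : lam * lin a = ∑ j, C (a j) * map (algebraMap K F) (b j)) :
    ∃ p : MvPolynomial ι K, map (algebraMap K F) p = lam := by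
  classical
  apply exists_lift_of_valuation
  intro V hV
  obtain ⟨j1, hj1⟩ := Function.ne_iff.mp ha
  have : Nonempty ι := ⟨j1⟩
  obtain ⟨j0, hj0⟩ := Finite.exists_max (fun j => V.valuation (a j))
  have ha0 : a j0 ≠ 0 := by
    intro h0
    have h1 := hj0 j1
    rw [h0, map_zero, le_zero_iff, map_eq_zero] at h1
    exact hj1 h1
  have hmem : ∀ j, a j / a j0 ∈ V := by
    intro j
    rw [← V.valuation_le_one_iff, map_div₀]
    exact div_le_one_of_le₀ (hj0 j) zero_le
  -- the hyperplane
  let H : Submodule K (ι → K) :=
    { carrier := {c | V.valuation (∑ j, a j / a j0 * algebraMap K F (c j)) < 1}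
      add_mem' := by
        intro c d hc hd
        show V.valuation (∑ j, a j / a j0 * algebraMap K F (c j + d j)) < 1
        have : ∑ j, a j / a j0 * algebraMap K F (c j + d j) =
            ∑ j, a j / a j0 * algebraMap K F (c j) + ∑ j, a j / a j0 * algebraMap K F (d j) := by
          rw [← Finset.sum_add_distrib]
          refine Finset.sum_congr rfl fun j _ => ?_
          rw [map_add, mul_add]
        rw [this]
        exact Valuation.map_add_lt _ hc hd
      zero_mem' := by
        show V.valuation (∑ j, a j / a j0 * algebraMap K F (0 : K)) < 1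
        simp
      smul_mem' := by
        intro x c hc
        show V.valuation (∑ j, a j / a j0 * algebraMap K F (x * c j)) < 1
        have : ∑ j, a j / a j0 * algebraMap K F (x * c j) =
            algebraMap K F x * ∑ j, a j / a j0 * algebraMap K F (c j) := by
          rw [Finset.mul_sum]
          refine Finset.sum_congr rfl fun j _ => ?_
          rw [map_mul]
          ring
        rw [this, map_mul]
        have hx : V.valuation (algebraMap K F x) ≤ 1 := (V.valuation_le_one_iff _).mpr (hV x)
        have hc' : V.valuation (∑ j, a j / a j0 * algebraMap K F (c j)) < 1 := hc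
        calc V.valuation (algebraMap K F x) * V.valuation (∑ j, a j / a j0 * algebraMap K F (c j))
            ≤ 1 * V.valuation (∑ j, a j / a j0 * algebraMap K F (c j)) := by gcongr
          _ < 1 := by rwa [one_mul] }
  have hnot : Pi.single j0 (1 : K) ∉ H := by
    intro hc
    have hc' : V.valuation (∑ j, a j / a j0 * algebraMap K F ((Pi.single j0 (1 : K) : ι → K) j)) < 1 :=
      hc
    rw [Finset.sum_eq_single j0] at hc'
    · rw [Pi.single_eq_same, map_one, mul_one, div_self ha0, map_one] at hc'
      exact lt_irrefl _ hc'
    · intro j _ hj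
      rw [Pi.single_eq_of_ne hj, map_zero, mul_zero]
    · simp
  obtain ⟨g, hg, hker⟩ := Submodule.exists_le_ker_of_notMem hnot
  have hgsum : ∀ c : ι → K, g c = ∑ j, g (Pi.single j 1) * c j := by
    intro c
    conv_lhs => rw [← Finset.univ_sum_single c]
    rw [map_sum]
    refine Finset.sum_congr rfl fun j _ => ?_
    have : (Pi.single j (c j) : ι → K) = c j • Pi.single j (1 : K) := by
      rw [← Pi.single_smul, smul_eq_mul, mul_one]
    rw [this, map_smul, smul_eq_mul, mul_comm]
  apply coeff_mem_of_eval_mem V hV lam (fun j => g (Pi.single j 1))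
  · intro h0
    exact hg (congrFun h0 j0)
  · intro c hc
    rw [← hgsum] at hc
    have hcH : c ∉ H := fun h' => hc (LinearMap.mem_ker.mp (hker h'))
    have hge : ¬ V.valuation (∑ j, a j / a j0 * algebraMap K F (c j)) < 1 := hcH
    have hev := congrArg (eval (fun i => algebraMap K F (c i))) h
    rw [map_mul, eval_lin, map_sum] at hev
    have hev2 : eval (fun i => algebraMap K F (c i)) lam *
        ∑ j, a j / a j0 * algebraMap K F (c j) =
        ∑ j, a j / a j0 * algebraMap K F (eval c (b j)) := by
      have e1 : ∑ j, a j / a j0 * algebraMap K F (c j) =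
          (∑ j, a j * algebraMap K F (c j)) / a j0 := by
        rw [Finset.sum_div]
        refine Finset.sum_congr rfl fun j _ => by ring
      rw [e1, mul_div_assoc', hev, Finset.sum_div]
      refine Finset.sum_congr rfl fun j _ => ?_
      have e2 : eval (fun i => algebraMap K F (c i)) (map (algebraMap K F) (b j)) =
          algebraMap K F (eval c (b j)) := by
        rw [eval_map, eval, coe_eval₂Hom, hom_eval₂]
        rfl
      rw [map_mul, eval_C, e2]
      ring
    have hle : V.valuation (∑ j, a j / a j0 * algebraMap K F (eval c (b j))) ≤ 1 := by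
      rw [V.valuation_le_one_iff]
      exact sum_mem fun j _ => V.mul_mem _ _ (hmem j) (hV _)
    rw [← hev2, map_mul] at hle
    rw [← V.valuation_le_one_iff]
    rw [not_lt] at hge
    calc V.valuation (eval (fun i => algebraMap K F (c i)) lam)
        = V.valuation (eval (fun i => algebraMap K F (c i)) lam) * 1 := (mul_one _).symm
      _ ≤ V.valuation (eval (fun i => algebraMap K F (c i)) lam) *
          V.valuation (∑ j, a j / a j0 * algebraMap K F (c j)) := by gcongr
      _ ≤ 1 := hle

end

end MP60829e.TL
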